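import Pool.Agent.helper6.EV.Spec
import Pool.Agent.helper30.LD.J0
import Pool.Agent.helper30.LD.J

/-! Module `UB` of project ev (MP_5a4a8e_nt): upper bound for `Bp`. -/

set_option autoImplicit false

namespace Pool.Agent.EV

open N1f72dd46 Filter MeasureTheory Complex Metric Pool.Agent.helper6.LD

theorem UB_Zs (t W : ℝ) (hW : ∀ ρ : ℂ, ρ ∈ closedBall (s4 t) (15 / 4) → riemannZeta ρ = 0 →
    ‖(s4 t - ρ)⁻¹‖ ≤ W) (k : ℕ) :
    ‖Zs t k‖ ≤ (zc (closedBall (s4 t) (15 / 4)) : ℝ) * W ^ k := by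
  have hb : Bornology.IsBounded (closedBall (s4 t) (15 / 4)) := isBounded_closedBall
  have e1 : Zs t k = ∑ ρ ∈ (zeros_finite hb).toFinset,
      (analyticOrderNatAt riemannZeta ρ : ℂ) * ((s4 t - ρ) ^ k)⁻¹ := by
    rw [Zs, finsum_mem_eq_finite_toFinset_sum _ (zeros_finite hb)]
  have e2 : (zc (closedBall (s4 t) (15 / 4)) : ℝ) =
      ∑ ρ ∈ (zeros_finite hb).toFinset, (analyticOrderNatAt riemannZeta ρ : ℝ) := by
    rw [h30_zc_eq hb]
    push_cast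
    rfl
  rw [e1, e2, Finset.sum_mul]
  refine (norm_sum_le _ _).trans (Finset.sum_le_sum fun ρ hρ => ?_)
  rw [Set.Finite.mem_toFinset] at hρ
  have h1 : ‖((s4 t - ρ) ^ k)⁻¹‖ = ‖(s4 t - ρ)⁻¹‖ ^ k := by
    rw [← inv_pow, norm_pow]
  rw [norm_mul, Complex.norm_natCast, h1]
  exact mul_le_mul_of_nonneg_left (pow_le_pow_left₀ (norm_nonneg _) (hW ρ hρ.1 hρ.2) k)
    (Nat.cast_nonneg _)

theorem UB_zero (t : ℝ) : ‖Bp (s4 t) 0‖ ≤ ∑' p : Nat.Primes, ((p : ℕ) : ℝ) ^ (-4 : ℝ) := by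
  have h0 : ∀ p : Nat.Primes, ‖(Real.log (p : ℕ) : ℂ) ^ 0 / (Nat.factorial 0 : ℂ) *
      ((p : ℕ) : ℂ) ^ (-(s4 t))‖ = ((p : ℕ) : ℝ) ^ (-4 : ℝ) := by
    intro p
    rw [pow_zero, Nat.factorial_zero, Nat.cast_one, div_one, one_mul,
      Complex.norm_natCast_cpow_of_pos p.2.pos]
    congr 1
    simp [s4]
  have hs : Summable fun p : Nat.Primes => ((p : ℕ) : ℝ) ^ (-4 : ℝ) :=
    Nat.Primes.summable_rpow.2 (by norm_num)
  have hs' : Summable fun p : Nat.Primes => ‖(Real.log (p : ℕ) : ℂ) ^ 0 / (Nat.factorial 0 : ℂ) *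
      ((p : ℕ) : ℂ) ^ (-(s4 t))‖ := by
    refine hs.congr fun p => ?_
    rw [h0]
  calc ‖Bp (s4 t) 0‖ ≤ ∑' p : Nat.Primes, ‖(Real.log (p : ℕ) : ℂ) ^ 0 / (Nat.factorial 0 : ℂ) *
      ((p : ℕ) : ℂ) ^ (-(s4 t))‖ := norm_tsum_le_tsum_norm hs'
    _ = ∑' p : Nat.Primes, ((p : ℕ) : ℝ) ^ (-4 : ℝ) := tsum_congr h0

theorem UB (hCO : CO_stmt) : UB_stmt := by
  obtain ⟨C, hC, hCO⟩ := hCO
  obtain ⟨D, hD, hzc⟩ := zc_disc 4 (by norm_num)
  set B0 : ℝ := ∑' p : Nat.Primes, ((p : ℕ) : ℝ) ^ (-4 : ℝ) with hB0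
  have hB0' : 0 ≤ B0 := tsum_nonneg fun p => Real.rpow_nonneg (Nat.cast_nonneg _) _
  refine ⟨C + D + B0, by linarith, ?_⟩
  intro t W ht hW hρ m
  have hlog : 1 ≤ Real.log t := by
    rw [Real.le_log_iff_exp_le (by linarith)]
    exact (Real.exp_one_lt_d9.le.trans (by norm_num)).trans ht
  have hW0 : 0 < W := by linarith
  rcases Nat.eq_zero_or_pos m with rfl | hm
  · refine (UB_zero t).trans ?_
    rw [Nat.cast_zero, zero_add, one_pow, mul_one, pow_zero, mul_one]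
    have h1 : (C + D + B0) * 1 ≤ (C + D + B0) * Real.log t :=
      mul_le_mul_of_nonneg_left hlog (by linarith)
    linarith
  · have hm1 : (1 : ℝ) ≤ m := by exact_mod_cast hm
    have h1 := hCO t m ht hm
    have h2 := UB_Zs t W hρ m
    have h3 : (zc (closedBall (s4 t) (15 / 4)) : ℝ) ≤ D * Real.log t := by
      have h4 := hzc t (by linarith)
      have e1 : (4 - 1 / 4 : ℝ) = 15 / 4 := by norm_num
      rw [e1] at h4
      exact h4
    have hWm : 0 < W ^ m := pow_pos hW0 m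
    have h5 : ((10 / 3 : ℝ) ^ m)⁻¹ ≤ W ^ m := by
      rw [← inv_pow]
      exact pow_le_pow_left₀ (by norm_num) (by norm_num; linarith) m
    have h6 : (m : ℝ) * ‖Bp (s4 t) m‖ ≤ D * Real.log t * W ^ m + C * m ^ 2 * Real.log t * W ^ m := by
      have e1 : (m : ℝ) * ‖Bp (s4 t) m‖ = ‖(m : ℂ) * Bp (s4 t) m‖ := by
        rw [norm_mul, Complex.norm_natCast]
      rw [e1]
      have e2 : ‖(m : ℂ) * Bp (s4 t) m‖ ≤ ‖Zs t m‖ + ‖(m : ℂ) * Bp (s4 t) m + Zs t m‖ := by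
        have e3 : (m : ℂ) * Bp (s4 t) m = ((m : ℂ) * Bp (s4 t) m + Zs t m) - Zs t m := by ring
        calc ‖(m : ℂ) * Bp (s4 t) m‖ = ‖((m : ℂ) * Bp (s4 t) m + Zs t m) - Zs t m‖ := by
              rw [← e3]
          _ ≤ ‖(m : ℂ) * Bp (s4 t) m + Zs t m‖ + ‖Zs t m‖ := norm_sub_le _ _
          _ = _ := add_comm _ _
      refine e2.trans (add_le_add (h2.trans (mul_le_mul_of_nonneg_right h3 hWm.le))
        (h1.trans (mul_le_mul_of_nonneg_left h5 ?_)))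
      positivity
    have hX : 0 ≤ Real.log t * W ^ m := by positivity
    have h7 : (m : ℝ) * ‖Bp (s4 t) m‖ ≤ (m : ℝ) *
        ((C + D + B0) * (m + 1) ^ 2 * Real.log t * W ^ m) := by
      refine h6.trans ?_
      have e1 : D * Real.log t * W ^ m + C * m ^ 2 * Real.log t * W ^ m =
          (D + C * m ^ 2) * (Real.log t * W ^ m) := by ring
      have e2 : (m : ℝ) * ((C + D + B0) * (m + 1) ^ 2 * Real.log t * W ^ m) =
          (m * (C + D + B0) * (m + 1) ^ 2) * (Real.log t * W ^ m) := by ring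
      rw [e1, e2]
      refine mul_le_mul_of_nonneg_right ?_ hX
      have g1 : (1 : ℝ) ≤ m * (m + 1) ^ 2 := by
        have : (1 : ℝ) ≤ (m + 1) ^ 2 := one_le_pow₀ (by linarith)
        exact one_le_mul_of_one_le_of_one_le hm1 this
      have g2 : (m : ℝ) ^ 2 ≤ m * (m + 1) ^ 2 := by
        have : (m : ℝ) ^ 2 ≤ (m + 1) ^ 2 := pow_le_pow_left₀ (by linarith) (by linarith) 2
        have g0 : 1 * ((m : ℝ) + 1) ^ 2 ≤ (m : ℝ) * ((m : ℝ) + 1) ^ 2 :=
          mul_le_mul_of_nonneg_right hm1 (by positivity)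
        rw [one_mul] at g0
        exact this.trans g0
      have g3 : D * 1 ≤ D * (m * (m + 1) ^ 2) := mul_le_mul_of_nonneg_left g1 hD.le
      have g4 : C * m ^ 2 ≤ C * (m * (m + 1) ^ 2) := mul_le_mul_of_nonneg_left g2 hC.le
      have g5 : 0 ≤ B0 * (m * (m + 1) ^ 2) := mul_nonneg hB0' (by positivity)
      calc D + C * m ^ 2 ≤ D * (m * (m + 1) ^ 2) + C * (m * (m + 1) ^ 2) + B0 * (m * (m + 1) ^ 2) := by
            linarith
        _ = m * (C + D + B0) * (m + 1) ^ 2 := by ring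
    exact le_of_mul_le_mul_left h7 (by linarith)

end Pool.Agent.EV
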